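import Mathlib

set_option autoImplicit false
set_option linter.unusedSectionVars false

namespace Pool.Agent.R364.DE

open Polynomial

/-- `star` is a standard involution of the `K`-algebra `H`, with trace `tr` and norm `nm`. -/
structure StdInv (K H : Type*) [Field K] [Ring H] [StarRing H] [Algebra K H] where
  tr : H → K
  nm : H → K
  add_star : ∀ x, x + star x = algebraMap K H (tr x)
  mul_star : ∀ x, x * star x = algebraMap K H (nm x)
  star_alg : ∀ c, star (algebraMap K H c) = algebraMap K H c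

section basic

variable {K H : Type*} [Field K] [Ring H] [StarRing H] [Nontrivial H] [Algebra K H]

namespace StdInv

variable (S : StdInv K H)

include S

theorem star_eq (x : H) : star x = algebraMap K H (S.tr x) - x := by
  rw [← S.add_star]; abel

theorem star_mul_self (x : H) : star x * x = algebraMap K H (S.nm x) := by
  rw [← S.mul_star, S.star_eq, sub_mul, mul_sub, Algebra.commutes]

theorem inj {c d : K} (h : algebraMap K H c = algebraMap K H d) : c = d :=
  (algebraMap K H).injective h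

theorem sq (x : H) : x * x = algebraMap K H (S.tr x) * x - algebraMap K H (S.nm x) := by
  rw [← S.star_mul_self, S.star_eq]; noncomm_ring

theorem tr_star (x : H) : S.tr (star x) = S.tr x := by
  apply S.inj; rw [← S.add_star, ← S.add_star, star_star]; abel

theorem tr_add (x y : H) : S.tr (x + y) = S.tr x + S.tr y := by
  apply S.inj; rw [map_add, ← S.add_star, ← S.add_star, ← S.add_star, star_add]; abel

theorem tr_alg_mul (c : K) (x : H) : S.tr (algebraMap K H c * x) = c * S.tr x := by
  apply S.inj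
  rw [map_mul, ← S.add_star, ← S.add_star, star_mul, S.star_alg, mul_add, Algebra.commutes c (star x)]

theorem tr_mul_comm (x y : H) : S.tr (x * y) = S.tr (y * x) := by
  apply S.inj
  rw [← S.add_star, ← S.add_star, star_mul, star_mul, S.star_eq x, S.star_eq y]
  have h1 := Algebra.commutes (S.tr x) y
  have h2 := Algebra.commutes (S.tr y) x
  have h3 := Algebra.commutes (S.tr x) (algebraMap K H (S.tr y))
  have e1 : x * y + (algebraMap K H (S.tr y) - y) * (algebraMap K H (S.tr x) - x) =
      x * y + algebraMap K H (S.tr y) * algebraMap K H (S.tr x) - algebraMap K H (S.tr y) * x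
        - y * algebraMap K H (S.tr x) + y * x := by noncomm_ring
  have e2 : y * x + (algebraMap K H (S.tr x) - x) * (algebraMap K H (S.tr y) - y) =
      y * x + algebraMap K H (S.tr x) * algebraMap K H (S.tr y) - algebraMap K H (S.tr x) * y
        - x * algebraMap K H (S.tr y) + x * y := by noncomm_ring
  rw [e1, e2, h1, h2, h3]; abel

theorem nm_mul (x y : H) : S.nm (x * y) = S.nm x * S.nm y := by
  apply S.inj
  rw [map_mul, ← S.mul_star (x * y), star_mul, mul_assoc, ← mul_assoc y, S.mul_star,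
    Algebra.commutes, ← mul_assoc, S.mul_star]

theorem nm_star (x : H) : S.nm (star x) = S.nm x := by
  apply S.inj; rw [← S.mul_star, star_star, S.star_mul_self]

theorem nm_one : S.nm 1 = 1 := by
  apply S.inj; rw [← S.mul_star, star_one, mul_one, map_one]

theorem nm_alg (c : K) : S.nm (algebraMap K H c) = c ^ 2 := by
  apply S.inj; rw [← S.mul_star, S.star_alg, ← map_mul, pow_two]

theorem tr_alg (c : K) : S.tr (algebraMap K H c) = 2 * c := by
  apply S.inj; rw [← S.add_star, S.star_alg, ← map_add, two_mul]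

/-- `x z = tr (x z) - star z * star x`. -/
theorem mul_eq (x z : H) : x * z = algebraMap K H (S.tr (x * z)) - star z * star x := by
  rw [← S.add_star, star_mul]; abel

theorem exists_unit {x y : H} (h : x * y = 1) : ∃ g : Hˣ, (g : H) = x ∧ ((g⁻¹ : Hˣ) : H) = y := by
  have h0 : S.nm x * S.nm y = 1 := by rw [← S.nm_mul, h, S.nm_one]
  have hx : S.nm x ≠ 0 := left_ne_zero_of_mul_eq_one h0
  have h1 : (algebraMap K H (S.nm x)⁻¹ * star x) * x = 1 := by
    rw [mul_assoc, S.star_mul_self, ← map_mul, inv_mul_cancel₀ hx, map_one]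
  have h2 : (algebraMap K H (S.nm x)⁻¹ * star x) = y := by
    calc (algebraMap K H (S.nm x)⁻¹ * star x) = (algebraMap K H (S.nm x)⁻¹ * star x) * (x * y) := by
          rw [h, mul_one]
      _ = y := by rw [← mul_assoc, h1, one_mul]
  rw [h2] at h1
  exact ⟨⟨x, y, h, h1⟩, rfl, rfl⟩

theorem star_unit (g : Hˣ) : star (g : H) = algebraMap K H (S.nm g) * ((g⁻¹ : Hˣ) : H) := by
  rw [← S.star_mul_self, mul_assoc, Units.mul_inv, mul_one]

theorem nm_unit_ne (g : Hˣ) : S.nm (g : H) ≠ 0 := by
  have h0 : S.nm (g : H) * S.nm ((g⁻¹ : Hˣ) : H) = 1 := by rw [← S.nm_mul, Units.mul_inv, S.nm_one]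
  exact left_ne_zero_of_mul_eq_one h0

end StdInv

/-- The involution `z ↦ u * star z * u⁻¹`. -/
def dag (u : Hˣ) (z : H) : H := u * star z * ((u⁻¹ : Hˣ) : H)

section dag

variable {u : Hˣ}

theorem dag_mul (x y : H) : dag u (x * y) = dag u y * dag u x := by
  simp only [dag, star_mul]
  have : (u : H) * star y * ((u⁻¹ : Hˣ) : H) * ((u : H) * star x * ((u⁻¹ : Hˣ) : H)) =
    (u : H) * star y * (((u⁻¹ : Hˣ) : H) * (u : H)) * star x * ((u⁻¹ : Hˣ) : H) := by noncomm_ring
  rw [this, Units.inv_mul, mul_one]; noncomm_ring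

theorem dag_add (x y : H) : dag u (x + y) = dag u x + dag u y := by
  simp only [dag, star_add]; noncomm_ring

theorem dag_sub (x y : H) : dag u (x - y) = dag u x - dag u y := by
  simp only [dag, star_sub]; noncomm_ring

theorem dag_one : dag u (1 : H) = 1 := by simp [dag]

variable (S : StdInv K H) (hu : star (u : H) = -(u : H))

include S

theorem dag_alg (c : K) : dag u (algebraMap K H c) = algebraMap K H c := by
  rw [dag, S.star_alg, ← Algebra.commutes, mul_assoc, Units.mul_inv, mul_one]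

include hu

theorem star_u_inv : star ((u⁻¹ : Hˣ) : H) = -((u⁻¹ : Hˣ) : H) := by
  have h1 : star ((u⁻¹ : Hˣ) : H) * star (u : H) = 1 := by
    rw [← star_mul, Units.mul_inv, star_one]
  rw [hu] at h1
  have h2 : (-(star ((u⁻¹ : Hˣ) : H))) * (u : H) = 1 := by
    rw [neg_mul]; rw [mul_neg] at h1; exact h1
  have h3 := congrArg (· * ((u⁻¹ : Hˣ) : H)) h2
  simp only [mul_assoc, Units.mul_inv, mul_one, one_mul] at h3
  rw [← neg_eq_iff_eq_neg]; exact h3

theorem u_sq_comm (x : H) : (u : H) * (u : H) * x = x * ((u : H) * (u : H)) := by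
  have h1 : (u : H) * (u : H) = algebraMap K H (-(S.nm (u : H))) := by
    rw [map_neg, ← S.mul_star, hu, mul_neg, neg_neg]
  rw [h1, Algebra.commutes]

theorem conj_eq (x : H) : ((u⁻¹ : Hˣ) : H) * x * u = u * x * ((u⁻¹ : Hˣ) : H) := by
  have h := u_sq_comm S hu x
  have h1 : ((u⁻¹ : Hˣ) : H) * ((u : H) * (u : H) * x) * ((u⁻¹ : Hˣ) : H) =
    ((u⁻¹ : Hˣ) : H) * (x * ((u : H) * (u : H))) * ((u⁻¹ : Hˣ) : H) := by rw [h]
  have h2 : ((u⁻¹ : Hˣ) : H) * ((u : H) * (u : H) * x) * ((u⁻¹ : Hˣ) : H) =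
    (((u⁻¹ : Hˣ) : H) * (u : H)) * ((u : H) * x) * ((u⁻¹ : Hˣ) : H) := by noncomm_ring
  have h3 : ((u⁻¹ : Hˣ) : H) * (x * ((u : H) * (u : H))) * ((u⁻¹ : Hˣ) : H) =
    ((u⁻¹ : Hˣ) : H) * x * (u : H) * ((u : H) * ((u⁻¹ : Hˣ) : H)) := by noncomm_ring
  rw [h2, h3, Units.inv_mul, Units.mul_inv, one_mul, mul_one] at h1
  exact h1.symm

theorem dag_dag (z : H) : dag u (dag u z) = z := by
  simp only [dag, star_mul, star_star, hu, star_u_inv S hu]
  have : (u : H) * (-((u⁻¹ : Hˣ) : H) * (z * -(u : H))) * ((u⁻¹ : Hˣ) : H) =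
    ((u : H) * ((u⁻¹ : Hˣ) : H)) * z * ((u : H) * ((u⁻¹ : Hˣ) : H)) := by noncomm_ring
  rw [this, Units.mul_inv, one_mul, mul_one]

theorem star_dag (z : H) : star (dag u z) = dag u (star z) := by
  simp only [dag, star_mul, star_star, hu, star_u_inv S hu]
  rw [← conj_eq S hu]; noncomm_ring

theorem tr_dag (z : H) : S.tr (dag u z) = S.tr z := by
  apply S.inj
  rw [← S.add_star, star_dag S hu, ← dag_add, S.add_star, dag_alg S]

theorem conj_u (z : H) : (u : H) * z * ((u⁻¹ : Hˣ) : H) = star (dag u z) := by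
  rw [star_dag S hu, dag, star_star]

end dag

end basic

section orders

variable {A K H : Type*} [CommRing A] [IsDedekindDomain A] [Field K] [Algebra A K]
  [IsFractionRing A K] [Ring H] [StarRing H] [Nontrivial H] [Algebra K H] [Algebra A H]
  [IsScalarTower A K H]

/-- Orders. -/
structure IsOrd (R : Subalgebra A H) : Prop where
  fg : (Subalgebra.toSubmodule R).FG
  clear : ∀ x : H, ∃ d : A, d ≠ 0 ∧ d • x ∈ R

/-- Orders stable under `dag u`. -/
structure IsDOrd (u : Hˣ) (R : Subalgebra A H) : Prop extends IsOrd R where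
  stable : ∀ x ∈ R, dag u x ∈ R

theorem integral_coeffs (S : StdInv K H) {x : H} (hx : IsIntegral A x) :
    (∃ r : A, algebraMap A K r = S.tr x) ∧ ∃ r : A, algebraMap A K r = S.nm x := by
  have hinj : Function.Injective (algebraMap K H) := (algebraMap K H).injective
  by_cases hK : x ∈ (algebraMap K H).range
  · obtain ⟨c, rfl⟩ := hK
    have h1 : IsIntegral A c := (isIntegral_algHom_iff (IsScalarTower.toAlgHom A K H) hinj).1 hx
    obtain ⟨r, hr⟩ := IsIntegrallyClosed.isIntegral_iff.1 h1
    refine ⟨⟨2 * r, ?_⟩, ⟨r ^ 2, ?_⟩⟩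
    · rw [map_mul, hr, map_ofNat, S.tr_alg]
    · rw [map_pow, hr, S.nm_alg]
  · set m : K[X] := X ^ 2 - C (S.tr x) * X + C (S.nm x) with hm
    have hmm : m.Monic := by rw [hm]; monicity!
    have hmd : m.natDegree = 2 := by rw [hm]; compute_degree!
    have hm0 : aeval x m = 0 := by
      rw [hm, map_add, map_sub, map_mul, map_pow, aeval_X, aeval_C, aeval_C, pow_two, S.sq]
      abel
    have hxK : IsIntegral K x := hx.tower_top
    have h2 : 2 ≤ (minpoly K x).natDegree := (minpoly.two_le_natDegree_iff hxK).2 hK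
    have hdvd : minpoly K x ∣ m := minpoly.dvd K x hm0
    have heq : minpoly K x = m := by
      symm
      refine Polynomial.eq_of_monic_of_dvd_of_natDegree_le (minpoly.monic hxK) hmm hdvd ?_
      rw [hmd]; exact h2
    obtain ⟨f, hf, hf0⟩ := hx
    have hf1 : aeval x (f.map (algebraMap A K)) = 0 := by
      rw [aeval_map_algebraMap]; exact hf0
    have hdvd2 : m ∣ f.map (algebraMap A K) := by
      rw [← heq]; exact minpoly.dvd K x hf1
    obtain ⟨g, hg⟩ := IsIntegrallyClosed.eq_map_mul_C_of_dvd K hf hdvd2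
    rw [hmm.leadingCoeff, C_1, mul_one] at hg
    refine ⟨⟨-(g.coeff 1), ?_⟩, ⟨g.coeff 0, ?_⟩⟩
    · rw [map_neg, ← coeff_map, hg, hm]
      simp [coeff_C]
    · rw [← coeff_map, hg, hm]
      simp

variable {R : Subalgebra A H}

theorem IsOrd.tr_mem (S : StdInv K H) (hR : IsOrd R) {x : H} (hx : x ∈ R) :
    ∃ r : A, algebraMap A K r = S.tr x :=
  (integral_coeffs S (IsIntegral.of_mem_of_fg R hR.fg x hx)).1

theorem IsOrd.nm_mem (S : StdInv K H) (hR : IsOrd R) {x : H} (hx : x ∈ R) :
    ∃ r : A, algebraMap A K r = S.nm x :=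
  (integral_coeffs S (IsIntegral.of_mem_of_fg R hR.fg x hx)).2

theorem algA_mem (R : Subalgebra A H) {c : K} (hc : ∃ r : A, algebraMap A K r = c) :
    algebraMap K H c ∈ R := by
  obtain ⟨r, rfl⟩ := hc
  rw [← IsScalarTower.algebraMap_apply]
  exact R.algebraMap_mem r

theorem IsOrd.star_mem (S : StdInv K H) (hR : IsOrd R) {x : H} (hx : x ∈ R) : star x ∈ R := by
  rw [S.star_eq]
  exact R.sub_mem (algA_mem R (hR.tr_mem S hx)) hx

theorem smulA (d : A) (x : H) : d • x = algebraMap K H (algebraMap A K d) * x := by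
  rw [← IsScalarTower.algebraMap_apply, Algebra.smul_def]

end orders

end Pool.Agent.R364.DE
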