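import Pool.Agent.R364.DE.Step

set_option autoImplicit false
set_option linter.unusedSectionVars false

namespace Pool.Agent.R364.DE

variable {A K H : Type*} [CommRing A] [IsDedekindDomain A] [Field K] [Algebra A K]
  [IsFractionRing A K] [Ring H] [StarRing H] [Nontrivial H] [Algebra K H] [Algebra A H]
  [IsScalarTower A K H]

variable {u : Hˣ}

/-- Finitely many symmetric elements of an order are in a Euclidean order. -/
theorem absorb (S : StdInv K H) (hu : star (u : H) = -(u : H)) {R : Subalgebra A H}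
    (hR : IsDOrd u R) (hE : Euc u R) {O : Subalgebra A H} (hO : IsOrd O) (s : Finset H)
    (hs : ∀ z ∈ s, z ∈ O ∧ dag u z = z) :
    ∃ R' : Subalgebra A H, IsDOrd u R' ∧ Euc u R' ∧ ∀ z ∈ s, z ∈ R' := by
  classical
  induction s using Finset.induction_on with
  | empty => exact ⟨R, hR, hE, by simp⟩
  | insert a s ha ih =>
    obtain ⟨R1, hR1, hE1, h1⟩ := ih fun z hz => hs z (Finset.mem_insert_of_mem hz)
    obtain ⟨ha1, ha2⟩ := hs a (Finset.mem_insert_self _ _)
    obtain ⟨R2, hR2, hE2, haR, hsub⟩ := step S hu hR1 hE1 hO ha1 ha2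
    refine ⟨R2, hR2, hE2, fun z hz => ?_⟩
    rcases Finset.mem_insert.1 hz with rfl | hz
    · exact haR
    · exact hsub z (h1 z hz) (hs z (Finset.mem_insert_of_mem hz)).1

/-- The symmetric elements of `O`. -/
def plusSub (S : StdInv K H) (u : Hˣ) (O : Subalgebra A H) : Submodule A H where
  carrier := {z | z ∈ O ∧ dag u z = z}
  add_mem' := by
    rintro x y ⟨hx, hx'⟩ ⟨hy, hy'⟩
    exact ⟨O.add_mem hx hy, by rw [dag_add, hx', hy']⟩
  zero_mem' := ⟨O.zero_mem, by simp [dag]⟩
  smul_mem' := by
    rintro c x ⟨hx, hx'⟩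
    refine ⟨O.smul_mem hx c, ?_⟩
    rw [smulA (K := K), dag_mul, dag_alg S, hx', Algebra.commutes]

theorem absorb_plus (S : StdInv K H) (hu : star (u : H) = -(u : H)) {R : Subalgebra A H}
    (hR : IsDOrd u R) (hE : Euc u R) {O : Subalgebra A H} (hO : IsOrd O) :
    ∃ R' : Subalgebra A H, IsDOrd u R' ∧ Euc u R' ∧ ∀ z ∈ O, dag u z = z → z ∈ R' := by
  have hfg : (plusSub S u O).FG := by
    have hle : plusSub S u O ≤ Subalgebra.toSubmodule O := fun z hz => hz.1
    have : Module.Finite A (Subalgebra.toSubmodule O) := Module.Finite.iff_fg.2 hO.fg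
    have : IsNoetherian A (Subalgebra.toSubmodule O) := isNoetherian_of_isNoetherianRing_of_finite A _
    have h1 := IsNoetherian.noetherian ((plusSub S u O).comap (Subalgebra.toSubmodule O).subtype)
    have h2 := h1.map (Subalgebra.toSubmodule O).subtype
    rwa [Submodule.map_comap_subtype, inf_eq_right.2 hle] at h2
  obtain ⟨s, hs⟩ := hfg
  obtain ⟨R', hR', hE', h⟩ := absorb S hu hR hE hO s fun z hz => by
    have : z ∈ plusSub S u O := hs ▸ Submodule.subset_span hz
    exact this
  refine ⟨R', hR', hE', fun z hz hzd => ?_⟩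
  have hz' : z ∈ plusSub S u O := ⟨hz, hzd⟩
  rw [← hs] at hz'
  have hle : Submodule.span A (s : Set H) ≤ Subalgebra.toSubmodule R' :=
    Submodule.span_le.2 fun z hz => h z hz
  exact hle hz'

/-- Maximal `dag`-orders contain the symmetric elements whose products with the order have integral
traces. -/
theorem mem_of_tr (S : StdInv K H) (hu : star (u : H) = -(u : H)) {O : Subalgebra A H}
    (hO : IsDOrd u O) (hmax : ∀ O' : Subalgebra A H, IsDOrd u O' → O ≤ O' → O' ≤ O)
    {y : H} (hyd : dag u y = y) (hty : ∃ r : A, algebraMap A K r = S.tr y)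
    (hny : ∃ r : A, algebraMap A K r = S.nm y)
    (htr : ∀ x ∈ O, ∃ r : A, algebraMap A K r = S.tr (x * y)) : y ∈ O := by
  have htyO := algA_mem O hty
  have hnyO := algA_mem O hny
  -- products x y
  have hxy : ∀ x ∈ O, ∃ p ∈ O, ∃ q ∈ O, x * y = p + y * q := by
    intro x hx
    refine ⟨algebraMap K H (S.tr (x * y)) - algebraMap K H (S.tr y) * star x,
      O.sub_mem (algA_mem O (htr x hx)) (O.mul_mem htyO (hO.toIsOrd.star_mem S hx)), star x,
      hO.toIsOrd.star_mem S hx, ?_⟩
    nth_rewrite 1 [S.mul_eq x y]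
    rw [S.star_eq y]; noncomm_ring
  let P : Subalgebra A H :=
    { carrier := {w | ∃ p ∈ O, ∃ q ∈ O, w = p + y * q}
      mul_mem' := by
        rintro a b ⟨p, hp, q, hq, rfl⟩ ⟨p', hp', q', hq', rfl⟩
        obtain ⟨p1, hp1, q1, hq1, h1⟩ := hxy p hp
        obtain ⟨p2, hp2, q2, hq2, h2⟩ := hxy q hq
        refine ⟨p * p' + p1 * q' - algebraMap K H (S.nm y) * q2 * q', ?_,
          q1 * q' + q * p' + p2 * q' + algebraMap K H (S.tr y) * q2 * q', ?_, ?_⟩
        · exact O.sub_mem (O.add_mem (O.mul_mem hp hp') (O.mul_mem hp1 hq'))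
            (O.mul_mem (O.mul_mem hnyO hq2) hq')
        · exact O.add_mem (O.add_mem (O.add_mem (O.mul_mem hq1 hq') (O.mul_mem hq hp'))
            (O.mul_mem hp2 hq')) (O.mul_mem (O.mul_mem htyO hq2) hq')
        · have e1 : (p + y * q) * (p' + y * q') =
            p * p' + (p * y) * q' + y * q * p' + y * (q * y) * q' := by noncomm_ring
          have e2 : y * (p2 + y * q2) * q' = y * p2 * q' + (y * y) * q2 * q' := by noncomm_ring
          have hc := Algebra.commutes (R := K) (A := H) (S.tr y) y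
          rw [e1, h1, h2, e2, S.sq y]
          have e3 : y * (q1 * q' + q * p' + p2 * q' + algebraMap K H (S.tr y) * q2 * q') =
            y * q1 * q' + y * q * p' + y * p2 * q' + (y * algebraMap K H (S.tr y)) * q2 * q' := by
            noncomm_ring
          rw [e3, ← hc]; noncomm_ring
      add_mem' := by
        rintro a b ⟨p, hp, q, hq, rfl⟩ ⟨p', hp', q', hq', rfl⟩
        exact ⟨p + p', O.add_mem hp hp', q + q', O.add_mem hq hq', by noncomm_ring⟩
      algebraMap_mem' := fun r => ⟨algebraMap A H r, O.algebraMap_mem r, 0, O.zero_mem, by simp⟩ }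
  have hmemP : ∀ w, w ∈ P ↔ ∃ p ∈ O, ∃ q ∈ O, w = p + y * q := fun w => Iff.rfl
  have hOP : O ≤ P := fun w hw => ⟨w, hw, 0, O.zero_mem, by simp⟩
  have hP : IsDOrd u P := by
    refine ⟨⟨?_, fun x => ?_⟩, ?_⟩
    · have : Subalgebra.toSubmodule P = Subalgebra.toSubmodule O ⊔
          (Subalgebra.toSubmodule O).map (LinearMap.mulLeft A y) := by
        ext w
        rw [Submodule.mem_sup]
        constructor
        · rintro ⟨p, hp, q, hq, rfl⟩
          exact ⟨p, hp, y * q, ⟨q, hq, rfl⟩, rfl⟩
        · rintro ⟨p, hp, _, ⟨q, hq, rfl⟩, rfl⟩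
          exact ⟨p, hp, q, hq, rfl⟩
      rw [this]
      exact hO.fg.sup (hO.fg.map _)
    · obtain ⟨d, hd, h⟩ := hO.clear x
      exact ⟨d, hd, hOP h⟩
    · rintro w ⟨p, hp, q, hq, rfl⟩
      rw [dag_add, dag_mul, hyd]
      obtain ⟨p1, hp1, q1, hq1, h1⟩ := hxy _ (hO.stable q hq)
      rw [h1, ← add_assoc]
      exact ⟨dag u p + p1, O.add_mem (hO.stable p hp) hp1, q1, hq1, rfl⟩
  exact hmax P hP hOP ⟨0, O.zero_mem, 1, O.one_mem, by simp⟩

/-- If a `dag`-order contains the symmetric elements of a maximal `dag`-order then both have the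
same symmetric elements. -/
theorem plus_le (S : StdInv K H) (hu : star (u : H) = -(u : H)) {O : Subalgebra A H}
    (hO : IsDOrd u O) (hmax : ∀ O' : Subalgebra A H, IsDOrd u O' → O ≤ O' → O' ≤ O)
    {R : Subalgebra A H} (hR : IsDOrd u R) (hsub : ∀ z ∈ O, dag u z = z → z ∈ R)
    {y : H} (hy : y ∈ R) (hyd : dag u y = y) : y ∈ O := by
  -- the ideal of the denominators of y
  let b : Ideal A :=
    { carrier := {c | c • y ∈ O}
      add_mem' := fun {a b} ha hb => by
        change (a + b) • y ∈ O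
        rw [add_smul]; exact O.add_mem ha hb
      zero_mem' := by change (0 : A) • y ∈ O; rw [zero_smul]; exact O.zero_mem
      smul_mem' := fun c x hx => by
        change (c • x) • y ∈ O
        rw [smul_eq_mul, mul_smul]; exact O.smul_mem hx c }
  have hmemb : ∀ c, c ∈ b ↔ c • y ∈ O := fun c => Iff.rfl
  by_contra hyO
  have hbtop : b ≠ ⊤ := by
    intro h
    apply hyO
    have : (1 : A) ∈ b := h ▸ Submodule.mem_top
    rw [hmemb, one_smul] at this
    exact this
  have hbbot : b ≠ ⊥ := by
    obtain ⟨d, hd, h⟩ := hO.clear y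
    intro hb
    have : d ∈ b := h
    rw [hb] at this
    exact hd this
  obtain ⟨P, hPmax, hbP⟩ := Ideal.exists_le_maximal b hbtop
  have hPbot : P ≠ ⊥ := fun h => hbbot (le_bot_iff.1 (h ▸ hbP))
  -- an element t of P⁻¹ that is not integral
  obtain ⟨t, htP, ht1⟩ := FractionalIdeal.exists_notMem_one_of_ne_bot (K := K) hPbot hPmax.ne_top
  have htP' : ∀ c ∈ P, ∃ r : A, algebraMap A K r = t * algebraMap A K c := by
    intro c hc
    have h := (FractionalIdeal.mem_inv_iff (by
      rw [Ne, FractionalIdeal.coeIdeal_eq_zero]; exact hPbot)).1 htP (algebraMap A K c)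
        (FractionalIdeal.mem_coeIdeal_of_mem _ hc)
    exact (FractionalIdeal.mem_one_iff _).1 h
  have hdagsmul : ∀ (c : A) (w : H), dag u w = w → dag u (c • w) = c • w := by
    intro c w hw
    rw [smulA (K := K), dag_mul, dag_alg S, hw, Algebra.commutes]
  -- there are c in b and x in O with tr (x c y) not in P
  have hex : ∃ c ∈ b, ∃ x ∈ O, ∀ r : A, algebraMap A K r = S.tr (x * (c • y)) → r ∉ P := by
    by_contra hcon
    push Not at hcon
    -- then t b ≤ b
    have htb : ∀ c ∈ b, ∃ c' ∈ b, algebraMap A K c' = t * algebraMap A K c := by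
      intro c hc
      obtain ⟨c', hc'⟩ := htP' c (hbP hc)
      refine ⟨c', ?_, hc'⟩
      rw [hmemb]
      have hcy : c' • y ∈ R := R.smul_mem hy c'
      refine mem_of_tr S hu hO hmax (hdagsmul c' y hyd) (hR.toIsOrd.tr_mem S hcy)
        (hR.toIsOrd.nm_mem S hcy) ?_
      intro x hx
      obtain ⟨r, hr, hrP⟩ := hcon c hc x hx
      obtain ⟨r', hr'⟩ := htP' r hrP
      refine ⟨r', ?_⟩
      have h1 : x * (c' • y) = algebraMap K H t * (x * (c • y)) := by
        rw [smulA (K := K), smulA (K := K), hc', map_mul]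
        rw [← mul_assoc x (algebraMap K H t * _), ← mul_assoc x (algebraMap K H t),
          ← Algebra.commutes t x]
        noncomm_ring
      rw [h1, S.tr_alg_mul, ← hr, hr']
    -- contradiction
    apply ht1
    have hint : IsIntegral A t := by
      let N : Submodule A K := Submodule.map (Algebra.linearMap A K) b
      refine isIntegral_of_smul_mem_submodule (M := K) N ?_ ?_ t ?_
      · intro hN
        apply hbbot
        rw [eq_bot_iff]
        intro c hc
        have : algebraMap A K c ∈ N := ⟨c, hc, rfl⟩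
        rw [hN, Submodule.mem_bot] at this
        exact (IsFractionRing.injective A K) (by rw [this, map_zero])
      · exact (IsNoetherian.noetherian b).map _
      · rintro _ ⟨c, hc, rfl⟩
        obtain ⟨c', hc', h⟩ := htb c hc
        exact ⟨c', hc', h⟩
    obtain ⟨r, hr⟩ := IsIntegrallyClosed.isIntegral_iff.1 hint
    exact (FractionalIdeal.mem_one_iff _).2 ⟨r, hr⟩
  obtain ⟨c, hc, x, hx, hcx⟩ := hex
  have hcP : c ∈ P := hbP hc
  set Y : H := c • y with hY
  have hYO : Y ∈ O := hc
  have hYd : dag u Y = Y := hdagsmul c y hyd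
  obtain ⟨t0, ht0⟩ := hO.toIsOrd.tr_mem S (O.mul_mem hx hYO)
  have ht0P : t0 ∉ P := hcx t0 ht0
  -- the element x Y x‡
  have hp : x * Y * dag u x ∈ O := O.mul_mem (O.mul_mem hx hYO) (hO.stable x hx)
  have hpd : dag u (x * Y * dag u x) = x * Y * dag u x := by
    rw [dag_mul, dag_mul, dag_dag S hu, hYd, mul_assoc]
  have hpR : x * Y * dag u x ∈ R := hsub _ hp hpd
  obtain ⟨r1, hr1⟩ := hR.toIsOrd.tr_mem S (R.mul_mem hpR hy)
  obtain ⟨ny, hny⟩ := hR.toIsOrd.nm_mem S hy
  obtain ⟨r2, hr2⟩ := hO.toIsOrd.tr_mem S (O.mul_mem hx (hO.toIsOrd.star_mem S (hO.stable x hx)))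
  -- trace of (x Y) (x‡ Y)
  have htrb : S.tr (dag u x * Y) = S.tr (x * Y) := by
    rw [← tr_dag S hu (dag u x * Y), dag_mul, dag_dag S hu, hYd, S.tr_mul_comm]
  have hab : S.tr (x * Y * (dag u x * Y)) =
      S.tr (x * Y) * S.tr (x * Y) - S.nm Y * S.tr (x * star (dag u x)) := by
    have h1 : x * Y * (dag u x * Y) = algebraMap K H (S.tr (dag u x * Y)) * (x * Y) -
        x * Y * star (dag u x * Y) := by
      have h2 : dag u x * Y = algebraMap K H (S.tr (dag u x * Y)) - star (dag u x * Y) := by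
        rw [S.star_eq (dag u x * Y)]; abel
      nth_rewrite 1 [h2]
      rw [mul_sub, Algebra.commutes]
    have h3 : x * Y * star (dag u x * Y) = algebraMap K H (S.nm Y) * (x * star (dag u x)) := by
      rw [star_mul]
      have : x * Y * (star Y * star (dag u x)) = x * (Y * star Y) * star (dag u x) := by
        noncomm_ring
      rw [this, S.mul_star, ← Algebra.commutes]; noncomm_ring
    have h4 : S.tr (x * Y * (dag u x * Y)) + S.tr (x * Y * star (dag u x * Y)) =
        S.tr (algebraMap K H (S.tr (dag u x * Y)) * (x * Y)) := by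
      rw [← S.tr_add]; congr 1; rw [h1]; abel
    rw [S.tr_alg_mul, h3, S.tr_alg_mul, htrb] at h4
    linear_combination h4
  have hab2 : S.tr (x * Y * (dag u x * Y)) = algebraMap A K c * S.tr (x * Y * dag u x * y) := by
    have : x * Y * (dag u x * Y) = algebraMap K H (algebraMap A K c) * (x * Y * dag u x * y) := by
      nth_rewrite 2 [hY]
      rw [smulA (K := K), ← mul_assoc (dag u x), ← Algebra.commutes, ← mul_assoc (x * Y),
        ← mul_assoc (x * Y), ← Algebra.commutes]
      noncomm_ring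
    rw [this, S.tr_alg_mul]
  have hnY : S.nm Y = algebraMap A K (c ^ 2 * ny) := by
    rw [hY, smulA (K := K), S.nm_mul, S.nm_alg, ← hny, map_mul, map_pow]
  have hfin : algebraMap A K (c * r1) = algebraMap A K (t0 * t0 - c ^ 2 * ny * r2) := by
    rw [map_mul, map_sub, map_mul, map_mul (algebraMap A K) (c ^ 2 * ny), hr1, ht0, hr2, ← hnY,
      ← hab2, hab]
  have hfin' := (IsFractionRing.injective A K) hfin
  have : t0 * t0 ∈ P := by
    have h5 : t0 * t0 = c * (r1 + c * ny * r2) := by linear_combination -hfin'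
    rw [h5]
    exact P.mul_mem_right _ hcP
  rcases hPmax.isPrime.mem_or_mem this with h | h
  · exact ht0P h
  · exact ht0P h

/-- The twisted Euclidean property only depends on the symmetric elements. -/
theorem euc_transfer (S : StdInv K H) {R O : Subalgebra A H} (hR : IsOrd R) (hO : IsOrd O)
    (hE : Euc u R) (hsub : ∀ z ∈ R, dag u z = z → z ∈ O) : Euc u O := by
  obtain ⟨W, i1, i2, Φ, hΦ⟩ := hE
  -- a common denominator
  have hden : ∃ n : A, n ≠ 0 ∧ ∀ x ∈ O, n • x ∈ R := by
    obtain ⟨s, hs⟩ := hO.fg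
    have h1 : ∃ n : A, n ≠ 0 ∧ ∀ x ∈ s, n • x ∈ R := by
      clear hs
      classical
      induction s using Finset.induction_on with
      | empty => exact ⟨1, one_ne_zero, by simp⟩
      | insert a s ha ih =>
        obtain ⟨n, hn, h⟩ := ih
        obtain ⟨d, hd, h'⟩ := hR.clear a
        refine ⟨n * d, mul_ne_zero hn hd, fun x hx => ?_⟩
        rcases Finset.mem_insert.1 hx with rfl | hx
        · rw [mul_smul]; exact R.smul_mem h' n
        · rw [mul_comm, mul_smul]; exact R.smul_mem (h x hx) d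
    obtain ⟨n, hn, h⟩ := h1
    refine ⟨n, hn, fun x hx => ?_⟩
    have hx' : x ∈ Submodule.span A (s : Set H) := hs ▸ hx
    have hle : Submodule.span A (s : Set H) ≤ (Subalgebra.toSubmodule R).comap
        (LinearMap.lsmul A H n) := Submodule.span_le.2 fun x hx => h x hx
    exact hle hx'
  obtain ⟨n, hn, hden⟩ := hden
  have hnK : algebraMap A K n ≠ 0 := fun h => hn ((IsFractionRing.injective A K) (by rw [h, map_zero]))
  refine ⟨W, i1, i2, fun x => Φ (n • x), fun x hx y hy hy0 hxy => ?_⟩
  have hny0 : n • y ≠ 0 := by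
    intro h
    apply hy0
    rw [smulA (K := K)] at h
    have := congrArg (fun t => algebraMap K H (algebraMap A K n)⁻¹ * t) h
    simp only [← mul_assoc, ← map_mul, inv_mul_cancel₀ hnK, map_one, one_mul, mul_zero] at this
    exact this
  have hprod : (n • x) * dag u (n • y) = algebraMap K H (algebraMap A K n * algebraMap A K n) *
      (x * dag u y) := by
    rw [smulA (K := K), smulA (K := K), dag_mul, dag_alg S, ← Algebra.commutes, map_mul]
    have : algebraMap K H (algebraMap A K n) * x * (algebraMap K H (algebraMap A K n) * dag u y) =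
      algebraMap K H (algebraMap A K n) * (x * algebraMap K H (algebraMap A K n)) * dag u y := by
      noncomm_ring
    rw [this, ← Algebra.commutes]; noncomm_ring
  obtain ⟨q, hq, hqd, hlt⟩ := hΦ (n • x) (hden x hx) (n • y) (hden y hy) hny0 (by
    rw [hprod, dag_mul, dag_alg S, hxy]
    exact (Algebra.commutes _ _).symm)
  refine ⟨q, hsub q hq hqd, hqd, ?_⟩
  have : n • (x - y * q) = n • x - n • y * q := by rw [smul_sub, smul_mul_assoc]
  beta_reduce
  rw [this]
  exact hlt

/-- Main theorem, abstract form. -/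
theorem main (S : StdInv K H) (hu : star (u : H) = -(u : H)) {R : Subalgebra A H}
    (hR : IsDOrd u R) (hE : Euc u R) {O : Subalgebra A H}
    (hO : IsDOrd u O) (hmax : ∀ O' : Subalgebra A H, IsDOrd u O' → O ≤ O' → O' ≤ O) :
    Euc u O := by
  obtain ⟨R', hR', hE', h⟩ := absorb_plus S hu hR hE hO.toIsOrd
  exact euc_transfer S hR'.toIsOrd hO.toIsOrd hE' fun z hz hzd => plus_le S hu hO hmax hR' h hz hzd

end Pool.Agent.R364.DE
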