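import Pool.Agent.R364.DE.Core

set_option autoImplicit false
set_option linter.unusedSectionVars false

namespace Pool.Agent.R364.DE

variable {A K H : Type*} [CommRing A] [IsDedekindDomain A] [Field K] [Algebra A K]
  [IsFractionRing A K] [Ring H] [StarRing H] [Nontrivial H] [Algebra K H] [Algebra A H]
  [IsScalarTower A K H]

/-- The twisted Euclidean property. -/
def Euc (u : Hˣ) (R : Subalgebra A H) : Prop :=
  ∃ (W : Type) (_ : LinearOrder W) (_ : WellFoundedLT W) (Φ : H → W), ∀ x ∈ R, ∀ y ∈ R, y ≠ 0 →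
    dag u (x * dag u y) = x * dag u y → ∃ q ∈ R, dag u q = q ∧ Φ (x - y * q) < Φ y

variable {u : Hˣ} {R : Subalgebra A H}

/-- A twisted Euclidean function can be chosen invariant under right multiplication by units. -/
theorem euc_right_inv (S : StdInv K H) (hu : star (u : H) = -(u : H)) (hR : IsDOrd u R)
    (hE : Euc u R) :
    ∃ (W : Type) (_ : LinearOrder W) (_ : WellFoundedLT W) (Φ : H → W),
      (∀ (x : H) (e : Hˣ), (e : H) ∈ R → ((e⁻¹ : Hˣ) : H) ∈ R → Φ (x * e) = Φ x) ∧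
      ∀ x ∈ R, ∀ y ∈ R, y ≠ 0 →
        dag u (x * dag u y) = x * dag u y → ∃ q ∈ R, dag u q = q ∧ Φ (x - y * q) < Φ y := by
  obtain ⟨W, _, _, Φ, hΦ⟩ := hE
  let T : H → Set W := fun x => {w | ∃ g : Hˣ, (g : H) ∈ R ∧ ((g⁻¹ : Hˣ) : H) ∈ R ∧ w = Φ (x * g)}
  have hT : ∀ x, (T x).Nonempty := fun x =>
    ⟨Φ (x * (1 : Hˣ)), 1, by simp [R.one_mem], by simp [R.one_mem], rfl⟩
  have hwf : WellFounded ((· < ·) : W → W → Prop) := wellFounded_lt
  refine ⟨W, inferInstance, inferInstance, fun x => hwf.min (T x) (hT x), ?_, ?_⟩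
  · intro x e he he'
    have : T (x * e) = T x := by
      ext w
      constructor
      · rintro ⟨g, hg, hg', rfl⟩
        refine ⟨e * g, ?_, ?_, ?_⟩
        · rw [Units.val_mul]; exact R.mul_mem he hg
        · rw [mul_inv_rev, Units.val_mul]; exact R.mul_mem hg' he'
        · rw [Units.val_mul, mul_assoc]
      · rintro ⟨g, hg, hg', rfl⟩
        refine ⟨e⁻¹ * g, ?_, ?_, ?_⟩
        · rw [Units.val_mul]; exact R.mul_mem he' hg
        · rw [mul_inv_rev, Units.val_mul, inv_inv]; exact R.mul_mem hg' he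
        · rw [Units.val_mul, mul_assoc, ← mul_assoc (e : H), Units.mul_inv, one_mul]
    simp only [this]
  · intro x hx y hy hy0 hxy
    obtain ⟨g, hg, hg', hmin⟩ := hwf.min_mem (T y) (hT y)
    have hyg : y * (g : H) ≠ 0 := by
      intro h
      apply hy0
      have := congrArg (· * ((g⁻¹ : Hˣ) : H)) h
      simpa [mul_assoc] using this
    have hdd : dag u ((g⁻¹ : Hˣ) : H) * dag u (g : H) = 1 := by
      rw [← dag_mul, Units.mul_inv, dag_one]
    have hdd' : dag u (g : H) * dag u ((g⁻¹ : Hˣ) : H) = 1 := by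
      rw [← dag_mul, Units.inv_mul, dag_one]
    have hprod : (x * dag u ((g⁻¹ : Hˣ) : H)) * dag u (y * g) = x * dag u y := by
      rw [dag_mul, mul_assoc, ← mul_assoc (dag u ((g⁻¹ : Hˣ) : H)), hdd, one_mul]
    obtain ⟨q, hq, hqd, hlt⟩ := hΦ (x * dag u ((g⁻¹ : Hˣ) : H)) (R.mul_mem hx (hR.stable _ hg'))
      (y * g) (R.mul_mem hy hg) hyg (by rw [hprod]; exact hxy)
    refine ⟨g * q * dag u (g : H), R.mul_mem (R.mul_mem hg hq) (hR.stable _ hg), ?_, ?_⟩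
    · rw [dag_mul, dag_mul, dag_dag S hu, hqd, mul_assoc]
    · have hmem : Φ ((x - y * (g * q * dag u (g : H))) * dag u ((g⁻¹ : Hˣ) : H)) ∈
          T (x - y * (g * q * dag u (g : H))) := by
        refine ⟨⟨dag u ((g⁻¹ : Hˣ) : H), dag u (g : H), hdd, hdd'⟩, hR.stable _ hg',
          hR.stable _ hg, rfl⟩
      have hle := hwf.min_le hmem
      have heq : (x - y * (g * q * dag u (g : H))) * dag u ((g⁻¹ : Hˣ) : H) =
          x * dag u ((g⁻¹ : Hˣ) : H) - y * g * q := by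
        rw [sub_mul]
        congr 1
        have : y * (g * q * dag u (g : H)) * dag u ((g⁻¹ : Hˣ) : H) =
          y * g * q * (dag u (g : H) * dag u ((g⁻¹ : Hˣ) : H)) := by noncomm_ring
        rw [this, hdd', mul_one]
      have h3 : Φ ((x - y * (g * q * dag u (g : H))) * dag u ((g⁻¹ : Hˣ) : H)) =
          Φ (x * dag u ((g⁻¹ : Hˣ) : H) - y * g * q) := by rw [heq]
      have h4 := lt_of_le_of_lt hle (h3.trans_lt hlt)
      rw [← hmin] at h4
      exact h4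

/-- Right ideals generated by a twisted pair are principal. -/
theorem principal (S : StdInv K H) (hu : star (u : H) = -(u : H)) (hR : IsDOrd u R)
    (hE : Euc u R) : ∀ y ∈ R, ∀ x ∈ R, dag u (x * dag u y) = x * dag u y →
    ∃ d ∈ R, (∃ r ∈ R, ∃ s ∈ R, d = x * r + y * s) ∧ (∃ p ∈ R, x = d * p) ∧ ∃ p ∈ R, y = d * p := by
  obtain ⟨W, _, _, Φ, hΦ⟩ := hE
  have hwf : WellFounded ((· < ·) : W → W → Prop) := wellFounded_lt
  have key : ∀ w : W, ∀ y ∈ R, Φ y = w → ∀ x ∈ R, dag u (x * dag u y) = x * dag u y →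
    ∃ d ∈ R, (∃ r ∈ R, ∃ s ∈ R, d = x * r + y * s) ∧ (∃ p ∈ R, x = d * p) ∧
      ∃ p ∈ R, y = d * p := by
    intro w
    induction w using hwf.induction with
    | _ w ih =>
      intro y hy hw x hx hxy
      by_cases hy0 : y = 0
      · subst hy0
        exact ⟨x, hx, ⟨1, R.one_mem, 0, R.zero_mem, by simp⟩, ⟨1, R.one_mem, by simp⟩,
          ⟨0, R.zero_mem, by simp⟩⟩
      · obtain ⟨q, hq, hqd, hlt⟩ := hΦ x hx y hy hy0 hxy
        have hr : x - y * q ∈ R := R.sub_mem hx (R.mul_mem hy hq)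
        have h1 : y * dag u (x - y * q) = dag u ((x - y * q) * dag u y) := by
          rw [dag_mul, dag_dag S hu]
        have h2 : dag u ((x - y * q) * dag u y) = (x - y * q) * dag u y := by
          rw [sub_mul, dag_sub, hxy]
          congr 1
          rw [dag_mul, dag_mul, dag_dag S hu, hqd, mul_assoc]
        obtain ⟨d, hd, ⟨r, hr', s, hs, hds⟩, ⟨p, hp, hdp⟩, ⟨p', hp', hdp'⟩⟩ :=
          ih (Φ (x - y * q)) (hw ▸ hlt) (x - y * q) hr rfl y hy (by rw [h1, h2, h2])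
        refine ⟨d, hd, ⟨s, hs, r - q * s, R.sub_mem hr' (R.mul_mem hq hs), ?_⟩, ?_, ⟨p, hp, hdp⟩⟩
        · rw [hds]; noncomm_ring
        · refine ⟨p' + p * q, R.add_mem hp' (R.mul_mem hp hq), ?_⟩
          have : x = (x - y * q) + y * q := by abel
          rw [this]
          nth_rewrite 1 [hdp']
          nth_rewrite 1 [hdp]
          noncomm_ring
  intro y hy x hx hxy
  exact key _ y hy rfl x hx hxy

/-- The conjugate order `g R g⁻¹`. -/
def conj (g : Hˣ) (R : Subalgebra A H) : Subalgebra A H where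
  carrier := {x | ((g⁻¹ : Hˣ) : H) * x * g ∈ R}
  mul_mem' := by
    intro x y hx hy
    have : ((g⁻¹ : Hˣ) : H) * (x * y) * g =
      (((g⁻¹ : Hˣ) : H) * x * g) * (((g⁻¹ : Hˣ) : H) * y * g) := by
      have h1 : (((g⁻¹ : Hˣ) : H) * x * g) * (((g⁻¹ : Hˣ) : H) * y * g) =
        ((g⁻¹ : Hˣ) : H) * x * ((g : H) * ((g⁻¹ : Hˣ) : H)) * y * g := by noncomm_ring
      rw [h1, Units.mul_inv, mul_one]; noncomm_ring
    simp only [Set.mem_ofPred_eq] at hx hy ⊢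
    rw [this]
    exact R.mul_mem hx hy
  add_mem' := by
    intro x y hx hy
    simp only [Set.mem_ofPred_eq] at hx hy ⊢
    rw [mul_add, add_mul]
    exact R.add_mem hx hy
  algebraMap_mem' := by
    intro r
    simp only [Set.mem_ofPred_eq]
    rw [← Algebra.commutes, mul_assoc, Units.inv_mul, mul_one]
    exact R.algebraMap_mem r

theorem mem_conj {g : Hˣ} {x : H} : x ∈ conj g R ↔ ((g⁻¹ : Hˣ) : H) * x * g ∈ R := Iff.rfl

theorem mem_conj' {g : Hˣ} {x : H} : x ∈ conj g R ↔ ∃ r ∈ R, x = g * r * ((g⁻¹ : Hˣ) : H) := by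
  constructor
  · intro h
    refine ⟨_, h, ?_⟩
    have : (g : H) * (((g⁻¹ : Hˣ) : H) * x * g) * ((g⁻¹ : Hˣ) : H) =
      ((g : H) * ((g⁻¹ : Hˣ) : H)) * x * ((g : H) * ((g⁻¹ : Hˣ) : H)) := by noncomm_ring
    rw [this, Units.mul_inv]; simp
  · rintro ⟨r, hr, rfl⟩
    rw [mem_conj]
    have : ((g⁻¹ : Hˣ) : H) * ((g : H) * r * ((g⁻¹ : Hˣ) : H)) * g =
      (((g⁻¹ : Hˣ) : H) * (g : H)) * r * (((g⁻¹ : Hˣ) : H) * (g : H)) := by noncomm_ring
    rw [this, Units.inv_mul]; simpa using hr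

theorem conj_isOrd (g : Hˣ) (hR : IsOrd R) : IsOrd (conj g R) where
  fg := by
    let f : H →ₗ[A] H := (LinearMap.mulLeft A (g : H)).comp (LinearMap.mulRight A ((g⁻¹ : Hˣ) : H))
    have h : Subalgebra.toSubmodule (conj g R) = (Subalgebra.toSubmodule R).map f := by
      ext x
      rw [Submodule.mem_map, Subalgebra.mem_toSubmodule, mem_conj']
      constructor
      · rintro ⟨r, hr, rfl⟩
        exact ⟨r, hr, by simp [f, mul_assoc]⟩
      · rintro ⟨r, hr, rfl⟩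
        exact ⟨r, hr, by simp [f, mul_assoc]⟩
    rw [h]
    exact hR.fg.map f
  clear := by
    intro x
    obtain ⟨d, hd, h⟩ := hR.clear (((g⁻¹ : Hˣ) : H) * x * g)
    refine ⟨d, hd, ?_⟩
    rw [mem_conj, mul_smul_comm, smul_mul_assoc]
    exact h

/-- The basic step. -/
theorem step (S : StdInv K H) (hu : star (u : H) = -(u : H)) (hR : IsDOrd u R)
    (hE : Euc u R) {O : Subalgebra A H} (hO : IsOrd O) {z : H} (hz : z ∈ O) (hzd : dag u z = z) :
    ∃ R' : Subalgebra A H, IsDOrd u R' ∧ Euc u R' ∧ z ∈ R' ∧ ∀ x ∈ R, x ∈ O → x ∈ R' := by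
  obtain ⟨n, hn, hnz⟩ := hR.clear z
  have hnK : algebraMap A K n ≠ 0 := fun h => hn ((IsFractionRing.injective A K) (by rw [h, map_zero]))
  set c : H := algebraMap K H (algebraMap A K n) with hc
  have hcR : c ∈ R := algA_mem R ⟨n, rfl⟩
  have hczR : c * z ∈ R := by rw [hc, ← smulA]; exact hnz
  have hcd : dag u c = c := dag_alg S _
  have hcomm : ∀ x : H, c * x = x * c := fun x => Algebra.commutes _ x
  obtain ⟨d, hd, ⟨r, hr, s, hs, hds⟩, ⟨p', hp', hdp'⟩, ⟨p, hp, hdp⟩⟩ :=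
    principal S hu hR hE c hcR (c * z) hczR (by
      rw [hcd, dag_mul, dag_mul, hcd, hzd, mul_assoc])
  -- the generator
  set c' : H := algebraMap K H (algebraMap A K n)⁻¹ with hc'
  have hcc' : c' * c = 1 := by rw [hc', hc, ← map_mul, inv_mul_cancel₀ hnK, map_one]
  set g0 : H := c' * d with hg0
  have hg0' : g0 = z * r + s := by
    rw [hg0, hds]
    have : c' * (c * z * r + c * s) = (c' * c) * (z * r + s) := by noncomm_ring
    rw [this, hcc', one_mul]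
  have hg0p : g0 * p = 1 := by
    rw [hg0, mul_assoc, ← hdp, hcc']
  have hg0p' : g0 * p' = z := by
    rw [hg0, mul_assoc, ← hdp', ← mul_assoc, hcc', one_mul]
  obtain ⟨g, hg, hgp⟩ := S.exists_unit hg0p
  have hginv : ((g⁻¹ : Hˣ) : H) ∈ R := by rw [hgp]; exact hp
  have hgz : ((g⁻¹ : Hˣ) : H) * z ∈ R := by
    rw [← hg0p', ← hg, ← mul_assoc, Units.inv_mul, one_mul]; exact hp'
  have hgr : (g : H) = z * r + s := by rw [hg, hg0']
  obtain ⟨tz, htz⟩ := hO.tr_mem S hz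
  obtain ⟨nz, hnz'⟩ := hO.nm_mem S hz
  have htzR : algebraMap K H (S.tr z) ∈ R := algA_mem R ⟨tz, htz⟩
  have hnzR : algebraMap K H (S.nm z) ∈ R := algA_mem R ⟨nz, hnz'⟩
  -- conjugation by u preserves R
  have huR : ∀ x ∈ R, (u : H) * x * ((u⁻¹ : Hˣ) : H) ∈ R := by
    intro x hx
    rw [conj_u S hu]
    exact hR.toIsOrd.star_mem S (hR.stable x hx)
  have huz : (u : H) * z * ((u⁻¹ : Hˣ) : H) = algebraMap K H (S.tr z) - z := by
    rw [conj_u S hu, hzd, S.star_eq]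
  have hεR : ((g⁻¹ : Hˣ) : H) * ((u : H) * g * ((u⁻¹ : Hˣ) : H)) ∈ R := by
    have h1 : (u : H) * g * ((u⁻¹ : Hˣ) : H) =
        (algebraMap K H (S.tr z) - z) * ((u : H) * r * ((u⁻¹ : Hˣ) : H)) +
          (u : H) * s * ((u⁻¹ : Hˣ) : H) := by
      rw [hgr, ← huz]
      have : (u : H) * z * ((u⁻¹ : Hˣ) : H) * ((u : H) * r * ((u⁻¹ : Hˣ) : H)) =
        (u : H) * z * (((u⁻¹ : Hˣ) : H) * (u : H)) * r * ((u⁻¹ : Hˣ) : H) := by noncomm_ring
      rw [this, Units.inv_mul, mul_one]; noncomm_ring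
    rw [h1, mul_add, ← mul_assoc, mul_sub]
    refine R.add_mem (R.mul_mem (R.sub_mem (R.mul_mem hginv htzR) hgz) (huR r hr))
      (R.mul_mem hginv (huR s hs))
  have hε'R : (u : H) * ((g⁻¹ : Hˣ) : H) * ((u⁻¹ : Hˣ) : H) * g ∈ R := by
    have h1 := huR _ hεR
    have h2 : (u : H) * (((g⁻¹ : Hˣ) : H) * ((u : H) * g * ((u⁻¹ : Hˣ) : H))) * ((u⁻¹ : Hˣ) : H) =
        (u : H) * ((g⁻¹ : Hˣ) : H) * ((u⁻¹ : Hˣ) : H) * g := by
      rw [← conj_eq S hu (g : H)]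
      have : (u : H) * (((g⁻¹ : Hˣ) : H) * (((u⁻¹ : Hˣ) : H) * g * (u : H))) * ((u⁻¹ : Hˣ) : H) =
        (u : H) * ((g⁻¹ : Hˣ) : H) * ((u⁻¹ : Hˣ) : H) * g * ((u : H) * ((u⁻¹ : Hˣ) : H)) := by
        noncomm_ring
      rw [this, Units.mul_inv, mul_one]
    rw [h2] at h1
    exact h1
  -- the unit e
  let ε : Hˣ := ⟨((g⁻¹ : Hˣ) : H) * ((u : H) * g * ((u⁻¹ : Hˣ) : H)),
    (u : H) * ((g⁻¹ : Hˣ) : H) * ((u⁻¹ : Hˣ) : H) * g, by
      have : ((g⁻¹ : Hˣ) : H) * ((u : H) * g * ((u⁻¹ : Hˣ) : H)) *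
        ((u : H) * ((g⁻¹ : Hˣ) : H) * ((u⁻¹ : Hˣ) : H) * g) =
        ((g⁻¹ : Hˣ) : H) * ((u : H) * g * ((((u⁻¹ : Hˣ) : H) *
        (u : H)) * ((g⁻¹ : Hˣ) : H)) * ((u⁻¹ : Hˣ) : H) * g) := by noncomm_ring
      rw [this, Units.inv_mul, one_mul]
      have : ((g⁻¹ : Hˣ) : H) * ((u : H) * g * ((g⁻¹ : Hˣ) : H) * ((u⁻¹ : Hˣ) : H) * g) =
        ((g⁻¹ : Hˣ) : H) * ((u : H) * ((g : H) * ((g⁻¹ : Hˣ) : H)) * ((u⁻¹ : Hˣ) : H) * g) := by
        noncomm_ring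
      rw [this, Units.mul_inv, mul_one, Units.mul_inv, one_mul, Units.inv_mul], by
      have : (u : H) * ((g⁻¹ : Hˣ) : H) * ((u⁻¹ : Hˣ) : H) * g *
        (((g⁻¹ : Hˣ) : H) * ((u : H) * g * ((u⁻¹ : Hˣ) : H))) =
        (u : H) * ((g⁻¹ : Hˣ) : H) * (((u⁻¹ : Hˣ) : H) * ((g : H) *
        ((g⁻¹ : Hˣ) : H)) * (u : H)) * g * ((u⁻¹ : Hˣ) : H) := by noncomm_ring
      rw [this, Units.mul_inv, mul_one, Units.inv_mul, mul_one]
      have : (u : H) * ((g⁻¹ : Hˣ) : H) * g * ((u⁻¹ : Hˣ) : H) =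
        (u : H) * (((g⁻¹ : Hˣ) : H) * g) * ((u⁻¹ : Hˣ) : H) := by noncomm_ring
      rw [this, Units.inv_mul, mul_one, Units.mul_inv]⟩
  have hεval : (ε : H) = ((g⁻¹ : Hˣ) : H) * ((u : H) * g * ((u⁻¹ : Hˣ) : H)) := rfl
  let e : Hˣ := ⟨star (ε : H), star ((ε⁻¹ : Hˣ) : H), by rw [← star_mul, Units.inv_mul, star_one],
    by rw [← star_mul, Units.mul_inv, star_one]⟩
  have heR : (e : H) ∈ R := hR.toIsOrd.star_mem S hεR
  have he'R : ((e⁻¹ : Hˣ) : H) ∈ R := hR.toIsOrd.star_mem S hε'R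
  have hdg : dag u (g : H) = algebraMap K H (S.nm g) * (e : H) * ((g⁻¹ : Hˣ) : H) := by
    have h1 : star ((g : H) * (ε : H)) = dag u (g : H) := by
      rw [hεval, ← mul_assoc, Units.mul_inv, one_mul, conj_u S hu, star_star]
    rw [← h1, star_mul, S.star_unit g]
    change (e : H) * _ = _
    rw [← mul_assoc, Algebra.commutes]
  have hng : S.nm (g : H) ≠ 0 := S.nm_unit_ne g
  have hed : dag u (e : H) = e := by
    have h1 : dag u (g : H) * g = algebraMap K H (S.nm g) * (e : H) := by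
      rw [hdg, mul_assoc, Units.inv_mul, mul_one]
    have h2 : dag u (dag u (g : H) * g) = dag u (g : H) * g := by
      rw [dag_mul, dag_dag S hu]
    rw [h1, dag_mul, dag_alg S, ← Algebra.commutes] at h2
    have h3 := congrArg (fun t => algebraMap K H (S.nm g)⁻¹ * t) h2
    simp only [← mul_assoc, ← map_mul, inv_mul_cancel₀ hng, map_one, one_mul] at h3
    exact h3
  have hdg' : dag u ((g⁻¹ : Hˣ) : H) =
      algebraMap K H (S.nm g)⁻¹ * (g : H) * ((e⁻¹ : Hˣ) : H) := by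
    have h1 : dag u ((g⁻¹ : Hˣ) : H) * dag u (g : H) = 1 := by
      rw [← dag_mul, Units.mul_inv, dag_one]
    have h2 : dag u ((g⁻¹ : Hˣ) : H) * dag u (g : H) *
        ((g : H) * ((e⁻¹ : Hˣ) : H) * algebraMap K H (S.nm g)⁻¹) =
        dag u ((g⁻¹ : Hˣ) : H) := by
      rw [hdg]
      have : dag u ((g⁻¹ : Hˣ) : H) * (algebraMap K H (S.nm g) * (e : H) * ((g⁻¹ : Hˣ) : H)) *
        ((g : H) * ((e⁻¹ : Hˣ) : H) * algebraMap K H (S.nm g)⁻¹) =
        dag u ((g⁻¹ : Hˣ) : H) * (algebraMap K H (S.nm g) * ((e : H) * ((((g⁻¹ : Hˣ) : H) *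
        (g : H)) * ((e⁻¹ : Hˣ) : H))) * algebraMap K H (S.nm g)⁻¹) := by noncomm_ring
      rw [this, Units.inv_mul, one_mul, Units.mul_inv, mul_one, ← map_mul, mul_inv_cancel₀ hng,
        map_one, mul_one]
    rw [← h2, h1, one_mul, ← Algebra.commutes, ← mul_assoc]
  have hdconj : ∀ x : H, dag u ((g : H) * x * ((g⁻¹ : Hˣ) : H)) =
      (g : H) * (((e⁻¹ : Hˣ) : H) * dag u x * (e : H)) * ((g⁻¹ : Hˣ) : H) := by
    intro x
    rw [dag_mul, dag_mul, hdg, hdg']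
    have hcm := Algebra.commutes (R := K) (A := H) (S.nm (g : H)) (dag u x)
    have : algebraMap K H (S.nm g)⁻¹ * (g : H) * ((e⁻¹ : Hˣ) : H) *
        (dag u x * (algebraMap K H (S.nm g) * (e : H) * ((g⁻¹ : Hˣ) : H))) =
        algebraMap K H (S.nm g)⁻¹ * ((g : H) * ((e⁻¹ : Hˣ) : H) *
        (dag u x * algebraMap K H (S.nm g)) * (e : H) * ((g⁻¹ : Hˣ) : H)) := by noncomm_ring
    rw [this, ← hcm]
    have h3 : (g : H) * ((e⁻¹ : Hˣ) : H) * (algebraMap K H (S.nm g) * dag u x) =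
        algebraMap K H (S.nm g) * ((g : H) * ((e⁻¹ : Hˣ) : H) * dag u x) := by
      rw [← mul_assoc, ← Algebra.commutes, mul_assoc]
    rw [h3]
    have h4 : algebraMap K H (S.nm g)⁻¹ * (algebraMap K H (S.nm g) * ((g : H) *
        ((e⁻¹ : Hˣ) : H) * dag u x) * (e : H) * ((g⁻¹ : Hˣ) : H)) =
        (algebraMap K H (S.nm g)⁻¹ * algebraMap K H (S.nm g)) * ((g : H) *
        (((e⁻¹ : Hˣ) : H) * dag u x * (e : H)) * ((g⁻¹ : Hˣ) : H)) := by noncomm_ring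
    rw [h4, ← map_mul, inv_mul_cancel₀ hng, map_one, one_mul]
  have hed' : dag u ((e⁻¹ : Hˣ) : H) = ((e⁻¹ : Hˣ) : H) := by
    have h1 : dag u ((e⁻¹ : Hˣ) : H) * dag u (e : H) = 1 := by
      rw [← dag_mul, Units.mul_inv, dag_one]
    rw [hed] at h1
    have := congrArg (· * ((e⁻¹ : Hˣ) : H)) h1
    simpa [mul_assoc] using this
  refine ⟨conj g R, ⟨conj_isOrd g hR.toIsOrd, ?_⟩, ?_, ?_, ?_⟩
  · -- stability
    intro x hx
    obtain ⟨r', hr', rfl⟩ := mem_conj'.1 hx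
    rw [hdconj]
    exact mem_conj'.2 ⟨_, R.mul_mem (R.mul_mem he'R (hR.stable _ hr')) heR, rfl⟩
  · -- Euclidean
    obtain ⟨W, i1, i2, Φ, hinv, hΦ⟩ := euc_right_inv S hu hR hE
    refine ⟨W, i1, i2, fun x => Φ (((g⁻¹ : Hˣ) : H) * x * g), ?_⟩
    intro x' hx' y' hy' hy0 hxy
    obtain ⟨x, hx, rfl⟩ := mem_conj'.1 hx'
    obtain ⟨y, hy, rfl⟩ := mem_conj'.1 hy'
    have hy0' : y ≠ 0 := by
      rintro rfl
      apply hy0; simp
    have hgg : ∀ t : H, ((g⁻¹ : Hˣ) : H) * ((g : H) * t * ((g⁻¹ : Hˣ) : H)) * g = t := by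
      intro t
      have : ((g⁻¹ : Hˣ) : H) * ((g : H) * t * ((g⁻¹ : Hˣ) : H)) * g =
        (((g⁻¹ : Hˣ) : H) * (g : H)) * t * (((g⁻¹ : Hˣ) : H) * (g : H)) := by noncomm_ring
      rw [this, Units.inv_mul]; simp
    have hgm : ∀ s t : H, ((g : H) * s * ((g⁻¹ : Hˣ) : H)) * ((g : H) * t * ((g⁻¹ : Hˣ) : H)) =
        (g : H) * (s * t) * ((g⁻¹ : Hˣ) : H) := by
      intro s t
      have : ((g : H) * s * ((g⁻¹ : Hˣ) : H)) * ((g : H) * t * ((g⁻¹ : Hˣ) : H)) =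
        (g : H) * s * (((g⁻¹ : Hˣ) : H) * (g : H)) * t * ((g⁻¹ : Hˣ) : H) := by noncomm_ring
      rw [this, Units.inv_mul]; noncomm_ring
    have hP : (g : H) * x * ((g⁻¹ : Hˣ) : H) * dag u ((g : H) * y * ((g⁻¹ : Hˣ) : H)) =
        (g : H) * ((x * ((e⁻¹ : Hˣ) : H)) * dag u y * (e : H)) * ((g⁻¹ : Hˣ) : H) := by
      rw [hdconj, hgm]; congr 2; noncomm_ring
    have hcond : dag u ((x * ((e⁻¹ : Hˣ) : H)) * dag u y) = (x * ((e⁻¹ : Hˣ) : H)) * dag u y := by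
      rw [hP, hdconj] at hxy
      have h1 := congrArg (fun t => ((g⁻¹ : Hˣ) : H) * t * g) hxy
      simp only [hgg] at h1
      rw [dag_mul, hed] at h1
      have h2 := congrArg (fun t => t * ((e⁻¹ : Hˣ) : H)) h1
      simp only [mul_assoc, Units.mul_inv, mul_one] at h2
      rw [← mul_assoc ((e⁻¹ : Hˣ) : H) (e : H), Units.inv_mul, one_mul] at h2
      rw [mul_assoc]
      exact h2
    obtain ⟨q, hq, hqd, hlt⟩ := hΦ (x * ((e⁻¹ : Hˣ) : H)) (R.mul_mem hx he'R) y hy hy0' hcond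
    refine ⟨(g : H) * (q * (e : H)) * ((g⁻¹ : Hˣ) : H), mem_conj'.2 ⟨_, R.mul_mem hq heR, rfl⟩,
      ?_, ?_⟩
    · rw [hdconj, dag_mul, hqd, hed]
      have : ((e⁻¹ : Hˣ) : H) * ((e : H) * q) * (e : H) =
        (((e⁻¹ : Hˣ) : H) * (e : H)) * q * (e : H) := by noncomm_ring
      rw [this, Units.inv_mul, one_mul]
    · have h1 : ((g⁻¹ : Hˣ) : H) * ((g : H) * x * ((g⁻¹ : Hˣ) : H) -
          (g : H) * y * ((g⁻¹ : Hˣ) : H) * ((g : H) * (q * (e : H)) * ((g⁻¹ : Hˣ) : H))) * g =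
          (x * ((e⁻¹ : Hˣ) : H) - y * q) * (e : H) := by
        rw [hgm, mul_sub, sub_mul, hgg, hgg, sub_mul]
        congr 1
        · rw [mul_assoc, Units.inv_mul, mul_one]
        · noncomm_ring
      beta_reduce
      rw [h1, hgg, hinv _ e heR he'R]
      exact hlt
  · -- z ∈ R'
    rw [mem_conj]
    have h1 : ((g⁻¹ : Hˣ) : H) * z * g =
        (((g⁻¹ : Hˣ) : H) * z) * s + (algebraMap K H (S.tr z) * (((g⁻¹ : Hˣ) : H) * z) -
          algebraMap K H (S.nm z) * ((g⁻¹ : Hˣ) : H)) * r := by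
      rw [hgr]
      have h2 : ((g⁻¹ : Hˣ) : H) * z * (z * r + s) =
        ((g⁻¹ : Hˣ) : H) * (z * z) * r + ((g⁻¹ : Hˣ) : H) * z * s := by noncomm_ring
      rw [h2, S.sq]
      have h3 := Algebra.commutes (R := K) (A := H) (S.tr z) ((g⁻¹ : Hˣ) : H)
      have h4 := Algebra.commutes (R := K) (A := H) (S.nm z) ((g⁻¹ : Hˣ) : H)
      rw [mul_sub, ← mul_assoc, ← h3, ← h4]; noncomm_ring
    rw [h1]
    exact R.add_mem (R.mul_mem hgz hs) (R.mul_mem (R.sub_mem (R.mul_mem htzR hgz)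
      (R.mul_mem hnzR hginv)) hr)
  · intro x hx hxO
    rw [mem_conj]
    obtain ⟨t, ht⟩ := hO.tr_mem S (O.mul_mem hxO hz)
    have htR : algebraMap K H (S.tr (x * z)) ∈ R := algA_mem R ⟨t, ht⟩
    have hxs : star x ∈ R := hR.toIsOrd.star_mem S hx
    have h1 : ((g⁻¹ : Hˣ) : H) * x * g =
        ((g⁻¹ : Hˣ) : H) * x * s + (algebraMap K H (S.tr (x * z)) * ((g⁻¹ : Hˣ) : H) -
          algebraMap K H (S.tr z) * ((g⁻¹ : Hˣ) : H) * star x +
          (((g⁻¹ : Hˣ) : H) * z) * star x) * r := by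
      rw [hgr]
      have h2 : ((g⁻¹ : Hˣ) : H) * x * (z * r + s) =
        ((g⁻¹ : Hˣ) : H) * (x * z) * r + ((g⁻¹ : Hˣ) : H) * x * s := by noncomm_ring
      rw [h2]
      nth_rewrite 1 [S.mul_eq x z]
      rw [S.star_eq z]
      have h3 := Algebra.commutes (R := K) (A := H) (S.tr (x * z)) ((g⁻¹ : Hˣ) : H)
      have h4 := Algebra.commutes (R := K) (A := H) (S.tr z) ((g⁻¹ : Hˣ) : H)
      have h5 : ((g⁻¹ : Hˣ) : H) * (algebraMap K H (S.tr (x * z)) -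
        (algebraMap K H (S.tr z) - z) * star x) =
        ((g⁻¹ : Hˣ) : H) * algebraMap K H (S.tr (x * z)) -
        ((g⁻¹ : Hˣ) : H) * algebraMap K H (S.tr z) * star x + ((g⁻¹ : Hˣ) : H) * z * star x := by
        noncomm_ring
      rw [h5, ← h3, ← h4]; abel
    rw [h1]
    refine R.add_mem (R.mul_mem (R.mul_mem hginv hx) hs) (R.mul_mem (R.add_mem (R.sub_mem
      (R.mul_mem htR hginv) (R.mul_mem (R.mul_mem htzR hginv) hxs)) (R.mul_mem hgz hxs)) hr)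

end Pool.Agent.R364.DE
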